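import Pool.Agent.E8helper41.QC.Sub

/-!
The heat semigroup on Schwartz functions for small times (piece QC8c of the project QC).
-/

set_option autoImplicit false
open MeasureTheory Filter Topology SchwartzMap FourierTransform Set
open scoped ContDiff ENNReal Real RealInnerProductSpace

namespace Pool.Agent.E8helper41.QC
open Pool.Agent.E8helper19.QC

noncomputable section

variable {n : ℕ}

/-- the Gaussian density -/
def Ga (n : ℕ) (z : E n) : ℝ := (1 / (4 * π)) ^ ((n : ℝ) / 2) * Real.exp (-(1 / 4) * ‖z‖ ^ 2)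

lemma Ga_nonneg (z : E n) : 0 ≤ Ga n z := by
  unfold Ga
  positivity

lemma Ga_neg (z : E n) : Ga n (-z) = Ga n z := by
  unfold Ga
  rw [norm_neg]

lemma Ga_cont : Continuous (Ga n) := by
  unfold Ga
  fun_prop

lemma fr_E : Module.finrank ℝ (E n) = n := by simp

lemma Ga_integral : ∫ z : E n, Ga n z = 1 := by
  unfold Ga
  rw [integral_const_mul, GaussianFourier.integral_rexp_neg_mul_sq_norm (by norm_num), fr_E,
    ← Real.mul_rpow (by positivity) (by positivity)]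
  have : 1 / (4 * π) * (π / (1 / 4)) = 1 := by
    have := Real.pi_pos
    field_simp
  rw [this, Real.one_rpow]

/-- polynomial times Gaussian -/
lemma Ga_decay (M : ℕ) : ∃ C : ℝ, 0 ≤ C ∧ ∀ z : E n, (1 + ‖z‖) ^ M * Ga n z ≤ C := by
  refine ⟨(1 / (4 * π)) ^ ((n : ℝ) / 2) * (Real.exp 2 * M.factorial), by positivity, fun z => ?_⟩
  unfold Ga
  have h0 : (0 : ℝ) ≤ ‖z‖ := norm_nonneg z
  have h1 := Real.pow_div_factorial_le_exp (x := 1 + ‖z‖) (by positivity) M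
  have h2 : Real.exp (-(1 / 4) * ‖z‖ ^ 2) ≤ Real.exp (2 - (1 + ‖z‖)) := by
    apply Real.exp_le_exp.2
    nlinarith [sq_nonneg (‖z‖ / 2 - 1)]
  have h3 : (1 + ‖z‖) ^ M ≤ M.factorial * Real.exp (1 + ‖z‖) := by
    rw [div_le_iff₀ (by positivity)] at h1
    linarith
  have h4 : (1 + ‖z‖) ^ M * Real.exp (-(1 / 4) * ‖z‖ ^ 2) ≤ Real.exp 2 * M.factorial := by
    calc (1 + ‖z‖) ^ M * Real.exp (-(1 / 4) * ‖z‖ ^ 2)
        ≤ (M.factorial * Real.exp (1 + ‖z‖)) * Real.exp (2 - (1 + ‖z‖)) :=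
          mul_le_mul h3 h2 (Real.exp_pos _).le (by positivity)
      _ = Real.exp 2 * M.factorial := by
          rw [Real.exp_sub]
          have := Real.exp_pos (1 + ‖z‖)
          field_simp
  have h5 : (0 : ℝ) ≤ (1 / (4 * π)) ^ ((n : ℝ) / 2) := by positivity
  calc (1 + ‖z‖) ^ M * ((1 / (4 * π)) ^ ((n : ℝ) / 2) * Real.exp (-(1 / 4) * ‖z‖ ^ 2))
      = (1 / (4 * π)) ^ ((n : ℝ) / 2) * ((1 + ‖z‖) ^ M * Real.exp (-(1 / 4) * ‖z‖ ^ 2)) := by ring
    _ ≤ _ := mul_le_mul_of_nonneg_left h4 h5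

lemma jb_int : Integrable (fun x : E n => ((1 + ‖x‖) ^ (n + 1))⁻¹) := by
  have h := integrable_one_add_norm (E := E n) (μ := volume) (r := (n : ℝ) + 1)
    (by rw [fr_E]; linarith)
  refine h.congr (ae_of_all _ fun x => ?_)
  simp only
  have hx : (0 : ℝ) < 1 + ‖x‖ := by positivity
  rw [Real.rpow_neg hx.le]
  congr 1
  exact_mod_cast Real.rpow_natCast (1 + ‖x‖) (n + 1)

lemma Ga_int (M : ℕ) : Integrable (fun z : E n => (1 + ‖z‖) ^ M * Ga n z) := by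
  obtain ⟨C, hC0, hC⟩ := Ga_decay (n := n) (M + (n + 1))
  have hm : Continuous (fun z : E n => (1 + ‖z‖) ^ M * Ga n z) :=
    (by fun_prop : Continuous fun z : E n => (1 + ‖z‖) ^ M).mul Ga_cont
  refine Integrable.mono' ((jb_int (n := n)).const_mul C) hm.aestronglyMeasurable ?_
  refine ae_of_all _ fun z => ?_
  have hx : (0 : ℝ) < (1 + ‖z‖) ^ (n + 1) := by positivity
  rw [Real.norm_of_nonneg (mul_nonneg (by positivity) (Ga_nonneg z)), ← div_eq_mul_inv,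
    le_div_iff₀ hx]
  refine le_trans (le_of_eq ?_) (hC z)
  ring

lemma psi_bd (ψ : 𝓢(E n, ℂ)) : ∃ C : ℝ, ∀ x, ‖ψ x‖ ≤ C := by
  obtain ⟨C, -, hC⟩ := ψ.decay 0 0
  refine ⟨C, fun x => ?_⟩
  have := hC x
  rwa [pow_zero, one_mul, norm_iteratedFDeriv_zero] at this

/-- the kernel of the heat semigroup -/
theorem heat_kernel (ψ : 𝓢(E n, ℂ)) {t : ℝ} (ht : 0 < t) (x : E n) :
    Heat n t ψ x = ∫ z : E n, ((Ga n z : ℝ) : ℂ) * ψ (x + √t • z) := by
  have hπ := Real.pi_pos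
  obtain ⟨b, hb⟩ : ∃ b : ℝ, b = 4 * π ^ 2 * t := ⟨_, rfl⟩
  have hb0 : 0 < b := by rw [hb]; positivity
  have hbc : 0 < ((b : ℂ)).re := by simpa using hb0
  set g : E n → ℂ := fun ξ => Complex.exp (-(b : ℂ) * ‖ξ‖ ^ 2 + 2 * π * Complex.I * ⟪x, ξ⟫)
    with hg
  have hgi : Integrable g := GaussianFourier.integrable_cexp_neg_mul_sq_norm_add hbc _ _
  -- self-adjointness of the Fourier transform
  have e1 : Heat n t ψ x = ∫ ξ : E n, 𝓕 (ψ : E n → ℂ) ξ • g ξ := by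
    unfold Heat
    rw [Real.fourierInv_eq']
    refine integral_congr_ae (ae_of_all _ fun ξ => ?_)
    simp only [hg, smul_eq_mul]
    rw [Complex.ofReal_exp, mul_comm, mul_right_comm, ← Complex.exp_add, mul_comm]
    congr 2
    rw [real_inner_comm, hb]
    push_cast
    ring
  have e2 : ∫ ξ : E n, 𝓕 (ψ : E n → ℂ) ξ • g ξ = ∫ y : E n, ψ y • 𝓕 g y := by
    simpa using! (VectorFourier.integral_fourierIntegral_smul_eq_flip (L := innerₗ (E n))
      Real.continuous_fourierChar continuous_inner ψ.integrable hgi)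
  have e3 : ∀ y : E n, 𝓕 g y = ((((1 / (4 * π * t)) ^ ((n : ℝ) / 2) *
      Real.exp (-(‖x - y‖ ^ 2 / (4 * t))) : ℝ)) : ℂ) := by
    intro y
    rw [hg, fourier_gaussian_innerProductSpace' hbc, fr_E, Complex.ofReal_mul,
      Complex.ofReal_exp, Complex.ofReal_cpow (by positivity)]
    congr 1
    · congr 1
      · rw [hb]
        push_cast
        have : (π : ℂ) ≠ 0 := by exact_mod_cast hπ.ne'
        have h2 : (t : ℂ) ≠ 0 := by exact_mod_cast ht.ne'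
        field_simp
      · push_cast
        ring
    · congr 1
      rw [hb]
      push_cast
      have : (π : ℂ) ≠ 0 := by exact_mod_cast hπ.ne'
      have h2 : (t : ℂ) ≠ 0 := by exact_mod_cast ht.ne'
      field_simp
  -- substitution
  set F : E n → ℂ := fun y => ψ y • 𝓕 g y with hF
  have e4 : ∫ y : E n, F y = ∫ y : E n, F (x + y) := (integral_add_left_eq_self F x).symm
  have hst : 0 < √t := Real.sqrt_pos.2 ht
  have e5 : ∫ y : E n, F (x + y) = ((√t ^ n : ℝ) : ℂ) * ∫ z : E n, F (x + √t • z) := by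
    have h1 := Measure.integral_comp_smul (volume : Measure (E n)) (fun y => F (x + y)) (√t)
    rw [h1, fr_E, abs_of_nonneg (by positivity), Complex.real_smul, ← mul_assoc,
      ← Complex.ofReal_mul, mul_inv_cancel₀ (by positivity), Complex.ofReal_one, one_mul]
  rw [e1, e2, e4, e5, ← integral_const_mul]
  refine integral_congr_ae (ae_of_all _ fun z => ?_)
  simp only [hF]
  rw [e3, smul_eq_mul]
  have h6 : ‖x - (x + √t • z)‖ ^ 2 = t * ‖z‖ ^ 2 := by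
    rw [sub_add_cancel_left, norm_neg, norm_smul, mul_pow, Real.norm_of_nonneg hst.le,
      Real.sq_sqrt ht.le]
  have h7 : (√t ^ n) * ((1 / (4 * π * t)) ^ ((n : ℝ) / 2) *
      Real.exp (-(t * ‖z‖ ^ 2 / (4 * t)))) = Ga n z := by
    unfold Ga
    have h8 : √t ^ n = t ^ ((n : ℝ) / 2) := by
      rw [Real.sqrt_eq_rpow, ← Real.rpow_natCast, ← Real.rpow_mul ht.le]
      congr 1
      ring
    rw [h8, ← mul_assoc, ← Real.mul_rpow ht.le (by positivity)]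
    congr 1
    · congr 1
      field_simp
    · congr 1
      field_simp
  rw [h6, ← h7]
  push_cast
  ring

/-! ### second differences -/

lemma d2_bound (ψ : 𝓢(E n, ℂ)) (N : ℕ) : ∃ D : ℝ, 0 ≤ D ∧
    ∀ y, (1 + ‖y‖) ^ N * ‖fderiv ℝ (fderiv ℝ (ψ : E n → ℂ)) y‖ ≤ D := by
  refine ⟨2 ^ N * ((Finset.Iic (N, 2)).sup fun m => SchwartzMap.seminorm ℝ m.1 m.2) ψ,
    by positivity, fun y => ?_⟩
  have h := SchwartzMap.one_add_le_sup_seminorm_apply (𝕜 := ℝ) (m := (N, 2)) (k := N) (n := 2)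
    le_rfl le_rfl ψ y
  have e : ‖iteratedFDeriv ℝ 2 (ψ : E n → ℂ) y‖ = ‖fderiv ℝ (fderiv ℝ (ψ : E n → ℂ)) y‖ := by
    rw [← norm_iteratedFDeriv_fderiv, ← norm_iteratedFDeriv_fderiv, norm_iteratedFDeriv_zero]
  rwa [e] at h

lemma second_diff (ψ : 𝓢(E n, ℂ)) (x h : E n) (S : ℝ)
    (hS : ∀ s ∈ Icc (-1 : ℝ) 1, ‖fderiv ℝ (fderiv ℝ (ψ : E n → ℂ)) (x + s • h)‖ ≤ S) :
    ‖ψ x - (1 / 2 : ℂ) * (ψ (x + h) + ψ (x - h))‖ ≤ ‖h‖ ^ 2 * S := by
  have hd1 : Differentiable ℝ (ψ : E n → ℂ) := (ψ.smooth 1).differentiable one_ne_zero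
  have hd2 : Differentiable ℝ (fderiv ℝ (ψ : E n → ℂ)) :=
    ((ψ.smooth 2).fderiv_right (m := 1) (by norm_num)).differentiable one_ne_zero
  have hline : ∀ (c s : ℝ), HasDerivAt (fun s : ℝ => x + (c * s) • h) (c • h) s := by
    intro c s
    have h1 : HasDerivAt (fun s : ℝ => c * s) c s := by
      simpa using (hasDerivAt_id s).const_mul c
    exact (h1.smul_const h).const_add x
  -- the first derivative along the segment
  have hA : ∀ s ∈ Icc (0 : ℝ) 1, ‖fderiv ℝ (ψ : E n → ℂ) (x + s • h) -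
      fderiv ℝ (ψ : E n → ℂ) (x + (-s) • h)‖ ≤ S * ‖h‖ * (s - -s) := by
    intro s hs
    have h2 : ∀ u ∈ Icc (-s) s, HasDerivWithinAt
        (fun u : ℝ => fderiv ℝ (ψ : E n → ℂ) (x + u • h))
        (fderiv ℝ (fderiv ℝ (ψ : E n → ℂ)) (x + u • h) h) (Icc (-s) s) u := by
      intro u _
      have h3 := hline 1 u
      simp only [one_mul, one_smul] at h3
      exact ((hd2 _).hasFDerivAt.comp_hasDerivAt u h3).hasDerivWithinAt
    refine norm_image_sub_le_of_norm_deriv_le_segment' h2 ?_ s ⟨by linarith [hs.1], le_rfl⟩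
    intro u hu
    refine (ContinuousLinearMap.le_opNorm _ _).trans ?_
    exact mul_le_mul_of_nonneg_right (hS u ⟨by linarith [hu.1, hs.2], by linarith [hu.2, hs.2]⟩)
      (norm_nonneg _)
  have hB : ∀ s ∈ Icc (0 : ℝ) 1, HasDerivWithinAt
      (fun s : ℝ => ψ (x + (1 * s) • h) + ψ (x + (-1 * s) • h))
      (fderiv ℝ (ψ : E n → ℂ) (x + (1 * s) • h) ((1 : ℝ) • h) +
        fderiv ℝ (ψ : E n → ℂ) (x + (-1 * s) • h) ((-1 : ℝ) • h)) (Icc 0 1) s := by
    intro s _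
    exact (((hd1 _).hasFDerivAt.comp_hasDerivAt s (hline 1 s)).add
      ((hd1 _).hasFDerivAt.comp_hasDerivAt s (hline (-1) s))).hasDerivWithinAt
  have hS0 : 0 ≤ S := (ContinuousLinearMap.opNorm_nonneg _).trans (hS 0 ⟨by norm_num, by norm_num⟩)
  have hC := norm_image_sub_le_of_norm_deriv_le_segment' (C := 2 * S * ‖h‖ ^ 2) hB (by
    intro s hs
    have e : fderiv ℝ (ψ : E n → ℂ) (x + (1 * s) • h) ((1 : ℝ) • h) +
        fderiv ℝ (ψ : E n → ℂ) (x + (-1 * s) • h) ((-1 : ℝ) • h) =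
        (fderiv ℝ (ψ : E n → ℂ) (x + s • h) - fderiv ℝ (ψ : E n → ℂ) (x + (-s) • h)) h := by
      rw [one_mul, one_smul, neg_one_mul, neg_one_smul, map_neg]
      simp [sub_eq_add_neg]
    rw [e]
    refine (ContinuousLinearMap.le_opNorm _ _).trans ?_
    have h5 := mul_le_mul_of_nonneg_right (hA s ⟨hs.1, hs.2.le⟩) (norm_nonneg h)
    refine h5.trans ?_
    have h6 : S * ‖h‖ * (s - -s) * ‖h‖ = 2 * S * ‖h‖ ^ 2 * s := by ring
    rw [h6]
    exact mul_le_of_le_one_right (by positivity) hs.2.le) 1 ⟨zero_le_one, le_rfl⟩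
  simp only [one_mul, mul_one, mul_zero, zero_smul, add_zero, one_smul, neg_smul, sub_zero] at hC
  have e : ψ x - (1 / 2 : ℂ) * (ψ (x + h) + ψ (x - h)) =
      -(1 / 2 : ℂ) * (ψ (x + h) + ψ (x + -h) - (ψ x + ψ x)) := by
    rw [sub_eq_add_neg x h]
    ring
  rw [e, norm_mul, norm_neg]
  have h7 : ‖(1 / 2 : ℂ)‖ = 1 / 2 := by norm_num
  rw [h7]
  linarith

/-! ### the bound -/

lemma heat_avg (ψ : 𝓢(E n, ℂ)) {t : ℝ} (ht : 0 < t) (x : E n) :
    ψ x - Heat n t ψ x = ∫ z : E n, ((Ga n z : ℝ) : ℂ) *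
      (ψ x - (1 / 2 : ℂ) * (ψ (x + √t • z) + ψ (x - √t • z))) := by
  obtain ⟨B, hB⟩ := psi_bd ψ
  have hGi : Integrable (fun z : E n => Ga n z) := by
    simpa using Ga_int (n := n) 0
  have hbi : ∀ c : ℝ, Integrable (fun z : E n => ((Ga n z : ℝ) : ℂ) * ψ (x + c • z)) := by
    intro c
    have hc : Continuous (fun z : E n => ((Ga n z : ℝ) : ℂ) * ψ (x + c • z)) :=
      (Complex.continuous_ofReal.comp Ga_cont).mul (ψ.continuous.comp (by fun_prop))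
    refine Integrable.mono' (hGi.mul_const B) hc.aestronglyMeasurable (ae_of_all _ fun z => ?_)
    rw [norm_mul, Complex.norm_real, Real.norm_of_nonneg (Ga_nonneg z)]
    exact mul_le_mul_of_nonneg_left (hB _) (Ga_nonneg z)
  have e1 : Heat n t ψ x = ∫ z : E n, ((Ga n z : ℝ) : ℂ) * ψ (x + √t • z) := heat_kernel ψ ht x
  have e2 : ∫ z : E n, ((Ga n z : ℝ) : ℂ) * ψ (x + √t • z) =
      ∫ z : E n, ((Ga n z : ℝ) : ℂ) * ψ (x + (-√t) • z) := by
    rw [← integral_neg_eq_self]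
    refine integral_congr_ae (ae_of_all _ fun z => ?_)
    simp only [Ga_neg, smul_neg, neg_smul]
  have e3 : ∫ z : E n, ((Ga n z : ℝ) : ℂ) * ψ x = ψ x := by
    rw [integral_mul_const, integral_complex_ofReal, Ga_integral, Complex.ofReal_one, one_mul]
  have hpi : Integrable (fun z : E n => ((Ga n z : ℝ) : ℂ) * ψ x) := hGi.ofReal.mul_const _
  have e4 : ∫ z : E n, ((Ga n z : ℝ) : ℂ) *
      (ψ x - (1 / 2 : ℂ) * (ψ (x + √t • z) + ψ (x - √t • z))) =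
      (∫ z : E n, ((Ga n z : ℝ) : ℂ) * ψ x) - (1 / 2 : ℂ) *
        ((∫ z : E n, ((Ga n z : ℝ) : ℂ) * ψ (x + √t • z)) +
          ∫ z : E n, ((Ga n z : ℝ) : ℂ) * ψ (x + (-√t) • z)) := by
    have hadd : Integrable (fun z : E n => (1 / 2 : ℂ) * (((Ga n z : ℝ) : ℂ) * ψ (x + √t • z) +
        ((Ga n z : ℝ) : ℂ) * ψ (x + (-√t) • z))) := ((hbi _).add (hbi _)).const_mul _
    rw [← integral_add (hbi _) (hbi _), ← integral_const_mul, ← integral_sub hpi hadd]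
    refine integral_congr_ae (ae_of_all _ fun z => ?_)
    simp only [neg_smul, ← sub_eq_add_neg]
    ring
  rw [e4, e3, ← e2, ← e1]
  ring

theorem sml_ptw (m : ℕ) (ψ : 𝓢(E n, ℂ)) : ∃ C : ℝ, 0 ≤ C ∧ ∀ t : ℝ, 0 < t → t ≤ 1 → ∀ x,
    (1 + ‖x‖) ^ m * ‖ψ x - Heat n t ψ x‖ ≤ C * t * ((1 + ‖x‖) ^ (n + 1))⁻¹ := by
  set N := m + (n + 1) with hN
  obtain ⟨D, hD0, hD⟩ := d2_bound ψ N
  have hGi := Ga_int (n := n) (N + 2)
  refine ⟨D * ∫ z : E n, (1 + ‖z‖) ^ (N + 2) * Ga n z, mul_nonneg hD0 (integral_nonneg fun z =>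
    mul_nonneg (by positivity) (Ga_nonneg z)), fun t ht ht1 x => ?_⟩
  have hst : 0 < √t := Real.sqrt_pos.2 ht
  have hst1 : √t ≤ 1 := Real.sqrt_le_one.2 ht1
  have hx0 : (0 : ℝ) < 1 + ‖x‖ := by positivity
  have key : ∀ z : E n, ‖ψ x - (1 / 2 : ℂ) * (ψ (x + √t • z) + ψ (x - √t • z))‖ ≤
      t * D * ((1 + ‖x‖) ^ N)⁻¹ * (1 + ‖z‖) ^ (N + 2) := by
    intro z
    have hz0 : (0 : ℝ) ≤ ‖z‖ := norm_nonneg z
    have hz1 : ‖√t • z‖ ≤ ‖z‖ := by
      rw [norm_smul, Real.norm_of_nonneg hst.le]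
      exact mul_le_of_le_one_left hz0 hst1
    have h1 := second_diff ψ x (√t • z) (D * (1 + ‖z‖) ^ N * ((1 + ‖x‖) ^ N)⁻¹) (by
      intro s hs
      have h2 := hD (x + s • (√t • z))
      have h3 : 1 + ‖x‖ ≤ (1 + ‖x + s • (√t • z)‖) * (1 + ‖z‖) := by
        have h4 : ‖x‖ ≤ ‖x + s • (√t • z)‖ + ‖s • (√t • z)‖ := by
          have := norm_sub_le (x + s • (√t • z)) (s • (√t • z))
          rwa [add_sub_cancel_right] at this
        have h5 : ‖s • (√t • z)‖ ≤ ‖z‖ := by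
          rw [norm_smul]
          have : ‖s‖ ≤ 1 := by
            rw [Real.norm_eq_abs, abs_le]
            exact hs
          exact (mul_le_of_le_one_left (norm_nonneg _) this).trans hz1
        have h6 : 0 ≤ ‖x + s • (√t • z)‖ := norm_nonneg _
        nlinarith
      have h7 : (1 + ‖x‖) ^ N ≤ (1 + ‖x + s • (√t • z)‖) ^ N * (1 + ‖z‖) ^ N := by
        rw [← mul_pow]
        exact pow_le_pow_left₀ hx0.le h3 N
      rw [← div_eq_mul_inv, le_div_iff₀ (by positivity)]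
      have h8 : 0 ≤ ‖fderiv ℝ (fderiv ℝ (ψ : E n → ℂ)) (x + s • (√t • z))‖ :=
        ContinuousLinearMap.opNorm_nonneg _
      calc ‖fderiv ℝ (fderiv ℝ (ψ : E n → ℂ)) (x + s • (√t • z))‖ * (1 + ‖x‖) ^ N
          ≤ ‖fderiv ℝ (fderiv ℝ (ψ : E n → ℂ)) (x + s • (√t • z))‖ *
            ((1 + ‖x + s • (√t • z)‖) ^ N * (1 + ‖z‖) ^ N) := mul_le_mul_of_nonneg_left h7 h8
        _ = ((1 + ‖x + s • (√t • z)‖) ^ N *
            ‖fderiv ℝ (fderiv ℝ (ψ : E n → ℂ)) (x + s • (√t • z))‖) * (1 + ‖z‖) ^ N := by ring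
        _ ≤ D * (1 + ‖z‖) ^ N := mul_le_mul_of_nonneg_right h2 (by positivity))
    refine h1.trans ?_
    have h9 : ‖√t • z‖ ^ 2 ≤ t * (1 + ‖z‖) ^ 2 := by
      rw [norm_smul, mul_pow, Real.norm_of_nonneg hst.le, Real.sq_sqrt ht.le]
      refine mul_le_mul_of_nonneg_left ?_ ht.le
      exact pow_le_pow_left₀ hz0 (by linarith) 2
    calc ‖√t • z‖ ^ 2 * (D * (1 + ‖z‖) ^ N * ((1 + ‖x‖) ^ N)⁻¹)
        ≤ (t * (1 + ‖z‖) ^ 2) * (D * (1 + ‖z‖) ^ N * ((1 + ‖x‖) ^ N)⁻¹) :=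
          mul_le_mul_of_nonneg_right h9 (by positivity)
      _ = t * D * ((1 + ‖x‖) ^ N)⁻¹ * (1 + ‖z‖) ^ (N + 2) := by
          rw [pow_add (1 + ‖z‖) N 2]
          ring
  have hnorm : ‖ψ x - Heat n t ψ x‖ ≤ t * D * ((1 + ‖x‖) ^ N)⁻¹ *
      ∫ z : E n, (1 + ‖z‖) ^ (N + 2) * Ga n z := by
    rw [heat_avg ψ ht x, ← integral_const_mul]
    refine norm_integral_le_of_norm_le (hGi.const_mul _) (ae_of_all _ fun z => ?_)
    rw [norm_mul, Complex.norm_real, Real.norm_of_nonneg (Ga_nonneg z)]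
    refine (mul_le_mul_of_nonneg_left (key z) (Ga_nonneg z)).trans (le_of_eq ?_)
    ring
  refine (mul_le_mul_of_nonneg_left hnorm (by positivity)).trans (le_of_eq ?_)
  rw [hN, pow_add (1 + ‖x‖) m (n + 1), mul_inv]
  have : (1 + ‖x‖) ^ m ≠ 0 := by positivity
  field_simp

theorem t_SML : S_SML := by
  intro n m ψ
  obtain ⟨C, hC0, hC⟩ := sml_ptw m ψ
  refine ⟨C * ∫ x : E n, ((1 + ‖x‖) ^ (n + 1))⁻¹, fun t ht ht1 => ?_⟩
  have hi : Integrable (fun x : E n => C * t * ((1 + ‖x‖) ^ (n + 1))⁻¹) := jb_int.const_mul _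
  have hc : Continuous (fun x : E n => (1 + ‖x‖) ^ m * ‖ψ x - Heat n t ψ x‖) := by
    have h1 : Continuous (Heat n t ψ) := inv_cont (heat_int ψ ht.le)
    have h2 := ψ.continuous
    fun_prop
  have hI : Integrable (fun x : E n => (1 + ‖x‖) ^ m * ‖ψ x - Heat n t ψ x‖) := by
    refine Integrable.mono' hi hc.aestronglyMeasurable (ae_of_all _ fun x => ?_)
    rw [Real.norm_of_nonneg (by positivity)]
    exact hC t ht ht1 x
  refine ⟨hI, (integral_mono hI hi fun x => hC t ht ht1 x).trans (le_of_eq ?_)⟩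
  rw [integral_const_mul]
  ring

end

end Pool.Agent.E8helper41.QC
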