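import Pool.Agent.E8helper19.QC.Stm

/-!
Subordination: `(-Δ)^(1/2)` as an integral of the heat semigroup (piece QC8b of the project QC).
-/

set_option autoImplicit false
open MeasureTheory Filter Topology SchwartzMap FourierTransform Set
open scoped ContDiff ENNReal Real RealInnerProductSpace

namespace Pool.Agent.E8helper41.QC
open Pool.Agent.E8helper19.QC

noncomputable section

/-! ### the scalar integral -/

/-- the kernel of the scalar integral -/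
def ka (a t : ℝ) : ℝ := t ^ (-(3 / 2) : ℝ) * (1 - Real.exp (-(t * a)))

lemma ka_nonneg {a t : ℝ} (ha : 0 ≤ a) (ht : 0 ≤ t) : 0 ≤ ka a t := by
  unfold ka
  refine mul_nonneg (Real.rpow_nonneg ht _) ?_
  have : Real.exp (-(t * a)) ≤ 1 := Real.exp_le_one_iff.2 (by nlinarith [mul_nonneg ht ha])
  linarith

lemma one_sub_exp_le (y : ℝ) : 1 - Real.exp (-y) ≤ y := by
  have := Real.add_one_le_exp (-y)
  linarith

lemma ka_int {a : ℝ} (ha : 0 ≤ a) : IntegrableOn (ka a) (Ioi 0) := by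
  have hm : Measurable (ka a) := by
    unfold ka
    fun_prop
  rw [← Ioc_union_Ioi_eq_Ioi (zero_le_one : (0 : ℝ) ≤ 1)]
  refine IntegrableOn.union ?_ ?_
  · have h1 : IntegrableOn (fun t : ℝ => a * t ^ (-(1 / 2) : ℝ)) (Ioc 0 1) := by
      have h2 := intervalIntegral.intervalIntegrable_rpow' (a := 0) (b := 1)
        (r := (-(1 / 2) : ℝ)) (by norm_num)
      rw [intervalIntegrable_iff_integrableOn_Ioc_of_le zero_le_one] at h2
      exact h2.const_mul a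
    refine Integrable.mono' h1 hm.aestronglyMeasurable ?_
    filter_upwards [ae_restrict_mem measurableSet_Ioc] with t ht
    rw [Real.norm_of_nonneg (ka_nonneg ha ht.1.le)]
    unfold ka
    have h3 : t ^ (-(3 / 2) : ℝ) * (t * a) = a * t ^ (-(1 / 2) : ℝ) := by
      have : t ^ (-(1 / 2) : ℝ) = t ^ (-(3 / 2) : ℝ) * t := by
        rw [← Real.rpow_add_one ht.1.ne']
        norm_num
      rw [this]
      ring
    rw [← h3]
    exact mul_le_mul_of_nonneg_left (one_sub_exp_le _) (Real.rpow_nonneg ht.1.le _)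
  · have h1 : IntegrableOn (fun t : ℝ => t ^ (-(3 / 2) : ℝ)) (Ioi 1) :=
      integrableOn_Ioi_rpow_of_lt (by norm_num) zero_lt_one
    refine Integrable.mono' h1 hm.aestronglyMeasurable ?_
    filter_upwards [ae_restrict_mem measurableSet_Ioi] with t ht
    have ht0 : (0 : ℝ) < t := lt_trans zero_lt_one ht
    rw [Real.norm_of_nonneg (ka_nonneg ha ht0.le)]
    unfold ka
    refine mul_le_of_le_one_right (Real.rpow_nonneg ht0.le _) ?_
    have := Real.exp_pos (-(t * a))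
    linarith

theorem ka_integral {a : ℝ} (ha : 0 ≤ a) : ∫ t in Ioi (0 : ℝ), ka a t = 2 * √π * √a := by
  rcases ha.eq_or_lt with rfl | ha'
  · simp [ka]
  -- the second integral
  have h1 : ∫ t in Ioi (0 : ℝ), t ^ ((1 / 2 : ℝ) - 1) * Real.exp (-(a * t)) =
      (1 / a) ^ (1 / 2 : ℝ) * Real.Gamma (1 / 2) :=
    Real.integral_rpow_mul_exp_neg_mul_Ioi (by norm_num) ha'
  have hpos : 0 < (1 / a) ^ (1 / 2 : ℝ) * Real.Gamma (1 / 2) := by
    rw [Real.Gamma_one_half_eq]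
    positivity
  have h2 : IntegrableOn (fun t : ℝ => t ^ ((1 / 2 : ℝ) - 1) * Real.exp (-(a * t))) (Ioi 0) := by
    by_contra hc
    have h3 : ∫ t in Ioi (0 : ℝ), t ^ ((1 / 2 : ℝ) - 1) * Real.exp (-(a * t)) = 0 :=
      integral_undef hc
    rw [h1] at h3
    exact hpos.ne' h3
  -- the primitive
  set G : ℝ → ℝ := fun t => -2 * t ^ (-(1 / 2) : ℝ) * (1 - Real.exp (-(t * a))) with hG
  have hder : ∀ t ∈ Ioi (0 : ℝ), HasDerivAt G
      (ka a t - 2 * a * (t ^ ((1 / 2 : ℝ) - 1) * Real.exp (-(a * t)))) t := by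
    intro t ht
    have ht0 : (0 : ℝ) < t := ht
    have h3 : HasDerivAt (fun t : ℝ => t ^ (-(1 / 2) : ℝ))
        ((-(1 / 2) : ℝ) * t ^ ((-(1 / 2) : ℝ) - 1)) t :=
      Real.hasDerivAt_rpow_const (Or.inl ht0.ne')
    have h4 : HasDerivAt (fun t : ℝ => 1 - Real.exp (-(t * a)))
        (-(Real.exp (-(t * a)) * (-(1 * a)))) t := by
      have h5 : HasDerivAt (fun t : ℝ => -(t * a)) (-(1 * a)) t :=
        ((hasDerivAt_id t).mul_const a).neg
      have h6 := (h5.exp).const_sub 1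
      exact h6
    have h7 := (h3.const_mul (-2)).mul h4
    refine h7.congr_deriv ?_
    unfold ka
    have e1 : (-(1 / 2) : ℝ) - 1 = -(3 / 2) := by norm_num
    have e2 : (1 / 2 : ℝ) - 1 = -(1 / 2) := by norm_num
    rw [e1, e2, mul_comm a t]
    ring
  have hbound : ∀ t : ℝ, 0 ≤ t → |G t| ≤ 2 * t ^ (-(1 / 2) : ℝ) * (1 - Real.exp (-(t * a))) := by
    intro t ht
    have h3 : 0 ≤ 1 - Real.exp (-(t * a)) := by
      have : Real.exp (-(t * a)) ≤ 1 := Real.exp_le_one_iff.2 (by nlinarith [mul_nonneg ht ha])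
      linarith
    have h4 : 0 ≤ t ^ (-(1 / 2) : ℝ) := Real.rpow_nonneg ht _
    rw [hG]
    simp only
    rw [abs_mul, abs_mul, abs_of_nonneg h3, abs_of_nonneg h4]
    norm_num
  have hG0 : G 0 = 0 := by
    rw [hG]
    simp
  have hcont : ContinuousWithinAt G (Ici 0) 0 := by
    rw [ContinuousWithinAt, hG0]
    have h3 : Tendsto (fun t : ℝ => 2 * a * t ^ (1 / 2 : ℝ)) (𝓝[Ici 0] 0) (𝓝 0) := by
      have h4 : Continuous fun t : ℝ => 2 * a * t ^ (1 / 2 : ℝ) :=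
        continuous_const.mul (Real.continuous_rpow_const (by norm_num))
      have h5 := (h4.tendsto 0).mono_left (nhdsWithin_le_nhds (s := Ici 0))
      simpa using h5
    refine squeeze_zero_norm' ?_ h3
    filter_upwards [self_mem_nhdsWithin] with t ht
    have ht0 : (0 : ℝ) ≤ t := ht
    rcases ht0.eq_or_lt with rfl | ht1
    · rw [hG0]
      simp
    · refine (hbound t ht0).trans ?_
      have h5 : t ^ (1 / 2 : ℝ) = t ^ (-(1 / 2) : ℝ) * t := by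
        rw [← Real.rpow_add_one ht1.ne']
        norm_num
      rw [h5]
      have h6 := mul_le_mul_of_nonneg_left (one_sub_exp_le (t * a))
        (by positivity : (0 : ℝ) ≤ 2 * t ^ (-(1 / 2) : ℝ))
      refine h6.trans (le_of_eq ?_)
      ring
  have hlim : Tendsto G atTop (𝓝 0) := by
    have h3 : Tendsto (fun t : ℝ => 2 * t ^ (-(1 / 2) : ℝ)) atTop (𝓝 0) := by
      have := (tendsto_rpow_neg_atTop (y := 1 / 2) (by norm_num)).const_mul 2
      simpa using this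
    refine squeeze_zero_norm' ?_ h3
    filter_upwards [eventually_ge_atTop 0] with t ht
    refine (hbound t ht).trans ?_
    refine mul_le_of_le_one_right (by positivity) ?_
    have := Real.exp_pos (-(t * a))
    linarith
  have hint : IntegrableOn (fun t : ℝ => ka a t - 2 * a * (t ^ ((1 / 2 : ℝ) - 1) *
      Real.exp (-(a * t)))) (Ioi 0) := (ka_int ha).sub (h2.const_mul (2 * a))
  have h8 := integral_Ioi_of_hasDerivAt_of_tendsto hcont hder hint hlim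
  rw [integral_sub (ka_int ha) (h2.const_mul (2 * a)), integral_const_mul, h1, hG0, sub_zero,
    sub_eq_zero] at h8
  rw [h8, Real.Gamma_one_half_eq]
  have h9 : (1 / a) ^ (1 / 2 : ℝ) = 1 / √a := by
    rw [Real.div_rpow zero_le_one ha, Real.one_rpow, ← Real.sqrt_eq_rpow]
  rw [h9]
  have h10 : 0 < √a := Real.sqrt_pos.2 ha'
  have h11 : √a * √a = a := Real.mul_self_sqrt ha
  field_simp
  nlinarith

/-! ### the Fourier transform of a Schwartz function -/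

variable {n : ℕ}

lemma w_cont (ψ : 𝓢(E n, ℂ)) : Continuous (𝓕 (ψ : E n → ℂ)) := by
  rw [← SchwartzMap.fourier_coe]
  exact (𝓕 ψ).continuous

lemma w_int (ψ : 𝓢(E n, ℂ)) : Integrable (𝓕 (ψ : E n → ℂ)) := by
  rw [← SchwartzMap.fourier_coe]
  exact (𝓕 ψ).integrable

lemma w_int1 (ψ : 𝓢(E n, ℂ)) : Integrable (fun ξ : E n => ‖ξ‖ * ‖𝓕 (ψ : E n → ℂ) ξ‖) := by
  rw [← SchwartzMap.fourier_coe]
  simpa using SchwartzMap.integrable_pow_mul volume (𝓕 ψ) 1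

lemma ex_int {f : E n → ℂ} (hf : Integrable f) (x : E n) :
    Integrable (fun ξ : E n => 𝐞 ⟪ξ, x⟫ • f ξ) := by
  have c : Continuous fun ξ : E n => 𝐞 ⟪ξ, x⟫ := by fun_prop
  rw [← integrable_norm_iff (c.aestronglyMeasurable.fun_smul hf.1)]
  simpa only [Circle.norm_smul] using hf.norm

lemma inv_bd (f : E n → ℂ) (x : E n) : ‖𝓕⁻ f x‖ ≤ ∫ ξ, ‖f ξ‖ := by
  rw [Real.fourierInv_eq]
  refine (norm_integral_le_integral_norm _).trans (le_of_eq ?_)
  simp only [Circle.norm_smul]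

lemma inv_cont {f : E n → ℂ} (hf : Integrable f) : Continuous (𝓕⁻ f) := by
  have e : 𝓕⁻ f = fun x => ∫ ξ, 𝐞 ⟪ξ, x⟫ • f ξ := by
    funext x
    rw [Real.fourierInv_eq]
  rw [e]
  apply continuous_of_dominated
  · exact fun x => (ex_int hf x).1
  · exact fun x => ae_of_all _ fun ξ => le_of_eq (Circle.norm_smul _ _)
  · exact hf.norm
  · filter_upwards with ξ
    fun_prop

lemma inv_psi (ψ : 𝓢(E n, ℂ)) (x : E n) : 𝓕⁻ (𝓕 (ψ : E n → ℂ)) x = ψ x :=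
  congrFun (ψ.continuous.fourierInv_fourier_eq ψ.integrable (w_int ψ)) x

/-- the coefficient `4 π² |ξ|²` -/
def aa (ξ : E n) : ℝ := 4 * π ^ 2 * ‖ξ‖ ^ 2

lemma aa_nonneg (ξ : E n) : 0 ≤ aa ξ := by
  unfold aa
  positivity

lemma sqrt_aa (ξ : E n) : √(aa ξ) = 2 * π * ‖ξ‖ := by
  unfold aa
  rw [show (4 : ℝ) * π ^ 2 * ‖ξ‖ ^ 2 = (2 * π * ‖ξ‖) ^ 2 by ring]
  exact Real.sqrt_sq (by positivity)

lemma aa_cont : Continuous (aa : E n → ℝ) := by
  unfold aa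
  fun_prop

lemma FL_eq {k : ℕ} {φ ψ : 𝓢(E n, ℂ)} (hn : n = 2 * k + 1) (h : IsLap k φ ψ) :
    FL n φ = 𝓕⁻ (fun ξ : E n => ((2 * π * ‖ξ‖ : ℝ) : ℂ) * 𝓕 (ψ : E n → ℂ) ξ) := by
  unfold FL
  congr 1
  funext ξ
  have e : (2 * π * ‖ξ‖) ^ n = (2 * π * ‖ξ‖) ^ (2 * k + 1) := congrArg _ hn
  rw [h ξ, e, pow_succ]
  push_cast
  ring

lemma gL_int (ψ : 𝓢(E n, ℂ)) :
    Integrable (fun ξ : E n => ((2 * π * ‖ξ‖ : ℝ) : ℂ) * 𝓕 (ψ : E n → ℂ) ξ) := by
  have hm : Continuous (fun ξ : E n => ((2 * π * ‖ξ‖ : ℝ) : ℂ) * 𝓕 (ψ : E n → ℂ) ξ) :=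
    (by fun_prop : Continuous fun ξ : E n => ((2 * π * ‖ξ‖ : ℝ) : ℂ)).mul (w_cont ψ)
  refine Integrable.mono' ((w_int1 ψ).const_mul (2 * π)) hm.aestronglyMeasurable ?_
  refine ae_of_all _ fun ξ => le_of_eq ?_
  rw [norm_mul, Complex.norm_real, Real.norm_of_nonneg (by positivity)]
  ring

/-! ### the heat semigroup -/

lemma ex_le {t : ℝ} (ht : 0 ≤ t) (ξ : E n) : Real.exp (-(4 * π ^ 2 * t * ‖ξ‖ ^ 2)) ≤ 1 :=
  Real.exp_le_one_iff.2 (by
    have : 0 ≤ 4 * π ^ 2 * t * ‖ξ‖ ^ 2 := by positivity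
    linarith)

lemma heat_int (ψ : 𝓢(E n, ℂ)) {t : ℝ} (ht : 0 ≤ t) : Integrable (fun ξ : E n =>
    ((Real.exp (-(4 * π ^ 2 * t * ‖ξ‖ ^ 2)) : ℝ) : ℂ) * 𝓕 (ψ : E n → ℂ) ξ) := by
  have hm : Continuous (fun ξ : E n =>
      ((Real.exp (-(4 * π ^ 2 * t * ‖ξ‖ ^ 2)) : ℝ) : ℂ) * 𝓕 (ψ : E n → ℂ) ξ) :=
    (by fun_prop : Continuous fun ξ : E n =>
      ((Real.exp (-(4 * π ^ 2 * t * ‖ξ‖ ^ 2)) : ℝ) : ℂ)).mul (w_cont ψ)
  refine Integrable.mono' (w_int ψ).norm hm.aestronglyMeasurable ?_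
  refine ae_of_all _ fun ξ => ?_
  rw [norm_mul, Complex.norm_real, Real.norm_of_nonneg (Real.exp_pos _).le]
  exact mul_le_of_le_one_left (norm_nonneg _) (ex_le ht ξ)

lemma heat_cont (ψ : 𝓢(E n, ℂ)) :
    ContinuousOn (fun z : ℝ × E n => Heat n z.1 ψ z.2) (Ioi 0 ×ˢ univ) := by
  have e : (fun z : ℝ × E n => Heat n z.1 ψ z.2) = fun z : ℝ × E n => ∫ ξ : E n,
      𝐞 ⟪ξ, z.2⟫ • (((Real.exp (-(4 * π ^ 2 * z.1 * ‖ξ‖ ^ 2)) : ℝ) : ℂ) *
        𝓕 (ψ : E n → ℂ) ξ) := by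
    funext z
    unfold Heat
    rw [Real.fourierInv_eq]
  rw [e]
  refine continuousOn_of_dominated (bound := fun ξ => ‖𝓕 (ψ : E n → ℂ) ξ‖) ?_ ?_ (w_int ψ).norm ?_
  · rintro ⟨t, x⟩ hz
    exact (ex_int (heat_int ψ (le_of_lt (mem_prod.1 hz).1)) x).1
  · rintro ⟨t, x⟩ hz
    refine ae_of_all _ fun ξ => ?_
    rw [Circle.norm_smul, norm_mul, Complex.norm_real, Real.norm_of_nonneg (Real.exp_pos _).le]
    exact mul_le_of_le_one_left (norm_nonneg _) (ex_le (le_of_lt (mem_prod.1 hz).1) ξ)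
  · refine ae_of_all _ fun ξ => Continuous.continuousOn ?_
    fun_prop

lemma psi_sub (ψ : 𝓢(E n, ℂ)) {t : ℝ} (ht : 0 ≤ t) (x : E n) : ψ x - Heat n t ψ x =
    ∫ ξ : E n, ((1 - Real.exp (-(t * aa ξ)) : ℝ) : ℂ) * (𝐞 ⟪ξ, x⟫ • 𝓕 (ψ : E n → ℂ) ξ) := by
  rw [← inv_psi ψ x]
  unfold Heat
  rw [Real.fourierInv_eq, Real.fourierInv_eq, ← integral_sub (ex_int (w_int ψ) x)
    (ex_int (heat_int ψ ht) x)]
  refine integral_congr_ae (ae_of_all _ fun ξ => ?_)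
  simp only
  have e1 : -(4 * π ^ 2 * t * ‖ξ‖ ^ 2) = -(t * aa ξ) := by
    unfold aa
    ring
  rw [e1, mul_comm, mul_comm (((1 - Real.exp (-(t * aa ξ)) : ℝ)) : ℂ), Circle.smul_def,
    Circle.smul_def, smul_eq_mul, smul_eq_mul]
  push_cast
  ring

theorem t_SUB : S_SUB := by
  intro n k φ ψ hn h
  have hgi := gL_int ψ
  refine ⟨?_, ⟨∫ ξ : E n, ‖((2 * π * ‖ξ‖ : ℝ) : ℂ) * 𝓕 (ψ : E n → ℂ) ξ‖, fun x => ?_⟩,
    heat_cont ψ, fun x => ?_⟩
  · rw [FL_eq hn h]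
    exact inv_cont hgi
  · rw [FL_eq hn h]
    exact inv_bd _ _
  set v : E n → ℂ := fun ξ => 𝐞 ⟪ξ, x⟫ • 𝓕 (ψ : E n → ℂ) ξ with hv
  have hvc : Continuous v := by
    have := w_cont ψ
    rw [hv]
    fun_prop
  have hvn : ∀ ξ, ‖v ξ‖ = ‖𝓕 (ψ : E n → ℂ) ξ‖ := fun ξ => Circle.norm_smul _ _
  -- the left hand side
  have e1 : FL n φ x = ∫ ξ : E n, ((2 * π * ‖ξ‖ : ℝ) : ℂ) * v ξ := by
    rw [FL_eq hn h, Real.fourierInv_eq]
    refine integral_congr_ae (ae_of_all _ fun ξ => ?_)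
    simp only [hv]
    rw [Circle.smul_def, Circle.smul_def, smul_eq_mul, smul_eq_mul]
    ring
  -- the right hand side
  have e2 : ∫ t in Ioi (0 : ℝ), ((t ^ (-(3 / 2) : ℝ) : ℝ) : ℂ) * (ψ x - Heat n t ψ x) =
      ∫ t in Ioi (0 : ℝ), ∫ ξ : E n, ((ka (aa ξ) t : ℝ) : ℂ) * v ξ := by
    refine setIntegral_congr_fun measurableSet_Ioi fun t ht => ?_
    rw [psi_sub ψ (le_of_lt ht) x, ← integral_const_mul]
    refine integral_congr_ae (ae_of_all _ fun ξ => ?_)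
    simp only [hv, ka]
    push_cast
    ring
  have e3 : ∫ t in Ioi (0 : ℝ), ∫ ξ : E n, ((ka (aa ξ) t : ℝ) : ℂ) * v ξ =
      ∫ ξ : E n, ∫ t in Ioi (0 : ℝ), ((ka (aa ξ) t : ℝ) : ℂ) * v ξ := by
    refine integral_integral_swap (f := fun (t : ℝ) (ξ : E n) => ((ka (aa ξ) t : ℝ) : ℂ) * v ξ) ?_
    have hmeas : Measurable (fun z : ℝ × E n => ((ka (aa z.2) z.1 : ℝ) : ℂ) * v z.2) := by
      have h1 : Measurable (aa : E n → ℝ) := aa_cont.measurable
      have h2 : Measurable v := hvc.measurable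
      unfold ka
      fun_prop
    refine (integrable_prod_iff' hmeas.aestronglyMeasurable).2 ⟨?_, ?_⟩
    · refine ae_of_all _ fun ξ => ?_
      exact ((ka_int (aa_nonneg ξ)).ofReal (𝕜 := ℂ)).mul_const (v ξ)
    · have h3 : ∀ ξ : E n, ∫ t in Ioi (0 : ℝ), ‖((ka (aa ξ) t : ℝ) : ℂ) * v ξ‖ =
          2 * √π * (2 * π) * (‖ξ‖ * ‖𝓕 (ψ : E n → ℂ) ξ‖) := by
        intro ξ
        have h4 : ∫ t in Ioi (0 : ℝ), ‖((ka (aa ξ) t : ℝ) : ℂ) * v ξ‖ =
            ∫ t in Ioi (0 : ℝ), ka (aa ξ) t * ‖v ξ‖ := by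
          refine setIntegral_congr_fun measurableSet_Ioi fun t ht => ?_
          rw [norm_mul, Complex.norm_real,
            Real.norm_of_nonneg (ka_nonneg (aa_nonneg ξ) (le_of_lt ht))]
        rw [h4, integral_mul_const, ka_integral (aa_nonneg ξ), sqrt_aa, hvn]
        ring
      simp only [h3]
      exact (w_int1 ψ).const_mul _
  have e4 : ∀ ξ : E n, ∫ t in Ioi (0 : ℝ), ((ka (aa ξ) t : ℝ) : ℂ) * v ξ =
      ((2 * √π : ℝ) : ℂ) * (((2 * π * ‖ξ‖ : ℝ) : ℂ) * v ξ) := by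
    intro ξ
    rw [integral_mul_const, integral_complex_ofReal, ka_integral (aa_nonneg ξ), sqrt_aa]
    push_cast
    ring
  rw [e2, e3]
  simp only [e4]
  rw [integral_const_mul, ← e1, ← mul_assoc, ← Complex.ofReal_mul]
  have h5 : (1 / (2 * √π)) * (2 * √π) = 1 := by
    have : 0 < √π := Real.sqrt_pos.2 Real.pi_pos
    field_simp
  rw [h5, Complex.ofReal_one, one_mul]

end

end Pool.Agent.E8helper41.QC
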